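import Pool.Agent.Helper68_Proj2.Sum

/-!
# The limit of the numbers `ρ_n` is `2`
-/

set_option autoImplicit false

namespace Pool.Agent.Results.MP_ca8ef3_an.LimitTwo

open Module Filter Topology Pool.Agent.Helper18_Proj Pool.Agent.Helper68_Proj2

/-- The parameters in the main theorem. -/
lemma good_param (m : ℕ) (hm : 1 ≤ m) (M : ℕ) (h1 : 16 * m ≤ M) (h2 : M ≤ 16 * m + 1) :
    Good (1 - 1 / (2 * (m:ℝ))) (F ((16 * m + 1) ^ (16 * m + 1)) M) := by
  have hm' : (1:ℝ) ≤ m := by exact_mod_cast hm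
  have hM1 : (16:ℝ) * m ≤ M := by exact_mod_cast h1
  have hM2 : (M:ℝ) ≤ 16 * m + 1 := by exact_mod_cast h2
  set η : ℝ := 1 / (8 * m) with hη
  have hη0 : 0 < η := by positivity
  have hη8 : η ≤ 1 / 8 := by
    rw [hη]
    apply one_div_le_one_div_of_le <;> linarith
  have hLη : 2 / (((16 * m : ℕ)) : ℝ) = η := by
    rw [hη]; push_cast; field_simp; norm_num
  have hMη : 2 / (M:ℝ) ≤ η := by
    rw [← hLη]
    apply div_le_div_of_nonneg_left (by norm_num) (by push_cast; linarith)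
    push_cast
    exact hM1
  have hc : 1 - 1 / (2 * (m:ℝ)) = 1 - 4 * η := by
    rw [hη]; field_simp; ring
  have hdiv : 1 - 2 * η ≤ (1 - η) / (1 + η) := by
    rw [le_div_iff₀ (by linarith)]
    nlinarith [sq_nonneg η]
  refine good_F (L := 16 * m) (η := η) (by omega) (by omega) (by positivity) hη0.le
    (by linarith) ?_ ?_ ?_
  · have hK : (0:ℝ) < 16 * m + 1 := by positivity
    have e1 : (2 / (16 * (m:ℝ) + 1)) ^ (16 * m) ≤ (2 / (M:ℝ)) ^ (16 * m) := by
      apply pow_le_pow_left₀ (by positivity)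
      exact div_le_div_of_nonneg_left (by norm_num) (by linarith) hM2
    have e2 : ((((16 * m + 1) ^ (16 * m + 1) : ℕ)) : ℝ) * (2 / (16 * (m:ℝ) + 1)) ^ (16 * m)
        = (16 * m + 1) * 2 ^ (16 * m) := by
      push_cast
      rw [pow_succ, div_pow]
      field_simp
    have e3 : (1:ℝ) ≤ 2 ^ (16 * m) := one_le_pow₀ (by norm_num)
    have e4 : 16 * (m:ℝ) ≤ ((((16 * m + 1) ^ (16 * m + 1) : ℕ)) : ℝ) * (2 / (M:ℝ)) ^ (16 * m) := by
      calc 16 * (m:ℝ) ≤ (16 * m + 1) * 2 ^ (16 * m) := by nlinarith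
        _ = ((((16 * m + 1) ^ (16 * m + 1) : ℕ)) : ℝ) * (2 / (16 * (m:ℝ) + 1)) ^ (16 * m) := e2.symm
        _ ≤ _ := mul_le_mul_of_nonneg_left e1 (by positivity)
    calc (2:ℝ) = η * (16 * m) := by rw [hη]; field_simp; norm_num
      _ ≤ _ := mul_le_mul_of_nonneg_left e4 hη0.le
  · rw [hLη, hc]; linarith
  · rw [hLη, hc]
    calc 1 - 4 * η ≤ (1 - 2 * η) * (1 - η) := by nlinarith
      _ ≤ (1 - η) / (1 + η) * (1 - 2 / M) := by
          apply mul_le_mul hdiv (by linarith) (by linarith)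
          exact div_nonneg (by linarith) (by linarith)

lemma explicit (m : ℕ) (hm : 1 ≤ m) (n : ℕ)
    (hn : (16 * m + 1) ^ (2 * (16 * m + 1) ^ (16 * m + 1)) ≤ n) :
    ENNReal.ofReal (2 - 1 / m) ≤ rho n := by
  have hm' : (1:ℝ) ≤ m := by exact_mod_cast hm
  have h1 : (2:ℝ) - 1 / m = 2 * (1 - 1 / (2 * m)) := by field_simp
  rw [h1]
  have hc : (0:ℝ) < 1 - 1 / (2 * m) := by
    have : 1 / (2 * (m:ℝ)) ≤ 1 / 2 := one_div_le_one_div_of_le (by norm_num) (by linarith)
    linarith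
  refine rho_ge_sum hc (k := (16 * m + 1) ^ (16 * m + 1)) (M := 16 * m) (by omega)
    (good_param m hm _ le_rfl (by omega)) (good_param m hm _ (by omega) le_rfl) ?_
  refine le_trans ?_ hn
  generalize (16 * m + 1) ^ (16 * m + 1) = k
  rw [two_mul, pow_add]
  exact Nat.mul_le_mul_right _ (Nat.pow_le_pow_left (by omega) _)

/-- Every normed space of positive dimension has a hyperplane which is the range of a projection
of norm at most `2`. -/
lemma minHyperplane_le_two (X : Type) [NormedAddCommGroup X] [NormedSpace ℝ X]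
    [FiniteDimensional ℝ X] (hn : 0 < finrank ℝ X) : minHyperplane X ≤ 2 := by
  have : Nontrivial X := Module.finrank_pos_iff.1 hn
  obtain ⟨x, hx⟩ := exists_ne (0 : X)
  obtain ⟨g, hg1, hgx⟩ := exists_dual_vector ℝ x (norm_ne_zero_iff.2 hx)
  have hN : 0 < ‖x‖ := norm_pos_iff.2 hx
  set x' : X := ‖x‖⁻¹ • x with hx'
  have hx'1 : ‖x'‖ = 1 := by
    rw [hx', norm_smul, norm_inv, norm_norm, inv_mul_cancel₀ hN.ne']
  have hgx' : g x' = 1 := by
    rw [hx', map_smul, hgx, smul_eq_mul]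
    exact inv_mul_cancel₀ hN.ne'
  set P : X →L[ℝ] X := ContinuousLinearMap.id ℝ X - g.smulRight x' with hP
  have hPz : ∀ z, P z = z - g z • x' := fun z => rfl
  have hproj : IsProj (LinearMap.ker (g : X →ₗ[ℝ] ℝ)) P := by
    constructor
    · apply le_antisymm
      · rintro _ ⟨z, rfl⟩
        rw [LinearMap.mem_ker]
        show g (P z) = 0
        rw [hPz, map_sub, map_smul, hgx']
        simp
      · intro z hz
        refine ⟨z, ?_⟩
        show P z = z
        have : g z = 0 := hz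
        rw [hPz, this, zero_smul, sub_zero]
    · intro z hz
      have : g z = 0 := hz
      rw [hPz, this, zero_smul, sub_zero]
  have hP2 : ‖P‖ ≤ 2 := by
    refine P.opNorm_le_bound (by norm_num) fun z => ?_
    rw [hPz]
    calc ‖z - g z • x'‖ ≤ ‖z‖ + ‖g z • x'‖ := norm_sub_le _ _
      _ ≤ ‖z‖ + ‖z‖ := by
          rw [norm_smul, hx'1, mul_one]
          have := g.le_opNorm z
          rw [hg1, one_mul] at this
          linarith
      _ = 2 * ‖z‖ := by ring
  have hdim : finrank ℝ (LinearMap.ker (g : X →ₗ[ℝ] ℝ)) + 1 = finrank ℝ X := by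
    have h1 := LinearMap.finrank_range_add_finrank_ker (g : X →ₗ[ℝ] ℝ)
    have h2 : LinearMap.range (g : X →ₗ[ℝ] ℝ) = ⊤ := by
      rw [LinearMap.range_eq_top]
      intro r
      refine ⟨r • x', ?_⟩
      show g (r • x') = r
      rw [map_smul, hgx', smul_eq_mul, mul_one]
    rw [h2, finrank_top, Module.finrank_self] at h1
    omega
  have h3 : minHyperplane X ≤ ENNReal.ofReal ‖P‖ := by
    refine (iInf₂_le (LinearMap.ker (g : X →ₗ[ℝ] ℝ)) hdim).trans ?_
    exact iInf₂_le P hproj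
  refine h3.trans ?_
  rw [← ENNReal.ofReal_ofNat]
  exact ENNReal.ofReal_le_ofReal hP2

lemma rho_le_two (n : ℕ) (hn : 0 < n) : rho n ≤ 2 := by
  unfold rho
  refine iSup_le fun X => iSup_le fun _ => iSup_le fun _ => iSup_le fun _ => iSup_le fun h => ?_
  exact minHyperplane_le_two X (by rw [h]; exact hn)

lemma limit : Tendsto rho atTop (𝓝 2) := by
  rw [tendsto_order]
  constructor
  · intro a ha
    have ha' : a ≠ ⊤ := ne_top_of_lt ha
    have h2 : (2 : ENNReal) = ENNReal.ofReal 2 := by norm_num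
    rw [h2, ENNReal.lt_ofReal_iff_toReal_lt ha'] at ha
    obtain ⟨m, hm⟩ := exists_nat_gt (1 / (2 - a.toReal))
    have hpos : 0 < 2 - a.toReal := by linarith
    have hm0 : (0:ℝ) < m := lt_trans (by positivity) hm
    have hm1 : 1 ≤ m := by exact_mod_cast hm0
    have hm2 : 1 / (m:ℝ) < 2 - a.toReal := by
      rw [div_lt_comm₀ hpos hm0] at hm
      exact hm
    filter_upwards [eventually_ge_atTop ((16 * m + 1) ^ (2 * (16 * m + 1) ^ (16 * m + 1)))]
      with n hn
    refine lt_of_lt_of_le ?_ (explicit m hm1 n hn)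
    rw [ENNReal.lt_ofReal_iff_toReal_lt ha']
    linarith
  · intro a ha
    filter_upwards [eventually_gt_atTop 0] with n hn
    exact lt_of_le_of_lt (rho_le_two n hn) ha

/-- The numbers `ρ_n` tend to `2`, with an explicit lower bound. -/
theorem result :
    Tendsto rho atTop (𝓝 2) ∧
    ∀ m n : ℕ, 1 ≤ m → (16 * m + 1) ^ (2 * (16 * m + 1) ^ (16 * m + 1)) ≤ n →
      ENNReal.ofReal (2 - 1 / m) ≤ rho n :=
  ⟨limit, fun m n hm hn => explicit m hm n hn⟩

end Pool.Agent.Results.MP_ca8ef3_an.LimitTwo
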